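import Mathlib

namespace Pool.Agent.P.MP_36a07b_nt

/-- The Thue-Morse sign. -/
def tm (n : ℕ) : ℤ := (-1) ^ (Nat.digits 2 n).sum

lemma tm_zero : tm 0 = 1 := by simp [tm]

lemma tm_even (n : ℕ) : tm (2 * n) = tm n := by
  rcases Nat.eq_zero_or_pos n with rfl | hn
  · simp
  · unfold tm
    rw [Nat.digits_def' (by norm_num) (by omega)]
    simp

lemma tm_odd (n : ℕ) : tm (2 * n + 1) = - tm n := by
  unfold tm
  rw [Nat.digits_def' (by norm_num) (by omega)]
  have h1 : (2 * n + 1) % 2 = 1 := by omega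
  have h2 : (2 * n + 1) / 2 = n := by omega
  rw [h1, h2, List.sum_cons, pow_add]
  simp

lemma tm_add (k : ℕ) : ∀ j, j < 2 ^ k → tm (2 ^ k + j) = - tm j := by
  induction k with
  | zero =>
    intro j hj
    have : j = 0 := by simpa using hj
    subst this
    have := tm_odd 0
    simpa using this
  | succ k ih =>
    intro j hj
    rcases Nat.even_or_odd' j with ⟨i, rfl | rfl⟩
    · have h : 2 ^ (k + 1) + 2 * i = 2 * (2 ^ k + i) := by ring
      rw [h, tm_even, tm_even, ih i (by rw [pow_succ] at hj; omega)]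
    · have h : 2 ^ (k + 1) + (2 * i + 1) = 2 * (2 ^ k + i) + 1 := by ring
      rw [h, tm_odd, tm_odd, ih i (by rw [pow_succ] at hj; omega)]

lemma tm_rev (k : ℕ) : ∀ i j, i + j + 1 = 2 ^ k → tm j = (-1) ^ k * tm i := by
  induction k with
  | zero =>
    intro i j h
    have h1 : i = 0 := by simp at h; omega
    have h2 : j = 0 := by simp at h; omega
    subst h1 h2; simp
  | succ k ih =>
    intro i j h
    rw [pow_succ] at h
    rcases Nat.even_or_odd' j with ⟨b, rfl | rfl⟩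
    · obtain ⟨a, rfl⟩ : ∃ a, i = 2 * a + 1 := ⟨i / 2, by omega⟩
      rw [tm_even, tm_odd, ih a b (by omega)]; ring
    · obtain ⟨a, rfl⟩ : ∃ a, i = 2 * a := ⟨i / 2, by omega⟩
      rw [tm_even, tm_odd, ih a b (by omega)]; ring

lemma tm_one : tm 1 = -1 := by have := tm_odd 0; simpa [tm_zero] using this
lemma tm_two : tm 2 = -1 := by have := tm_even 1; simpa [tm_one] using this
lemma tm_three : tm 3 = 1 := by have := tm_odd 1; simpa [tm_one] using this

/-- The second basic solution of the recurrence. -/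
def g : ℕ → ℤ
  | 0 => 1
  | 1 => 0
  | (n + 2) => tm (n + 2) * g (n + 1) + g n

section
variable (h : ℕ → ℤ) (h0 : h 0 = 0) (h1 : h 1 = 1)
  (hr : ∀ n, h (n + 2) = tm (n + 2) * h (n + 1) + h n)
include h0 h1 hr

lemma wronski (n : ℕ) : h (n + 1) * g n - h n * g (n + 1) = (-1) ^ n := by
  induction n with
  | zero => simp [h0, h1, g]
  | succ n ih =>
    rw [hr n, g, pow_succ, ← ih]; ring

lemma shift (k : ℕ) : ∀ j, j + 1 < 2 ^ k →
    h (2 ^ k + j) = (-1) ^ j * (- h (2 ^ k + 1) * h j + h (2 ^ k) * g j) ∧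
    h (2 ^ k + (j + 1)) = (-1) ^ (j + 1) * (- h (2 ^ k + 1) * h (j + 1) + h (2 ^ k) * g (j + 1)) := by
  intro j
  induction j with
  | zero => intro _; simp [h0, h1, g]
  | succ j ih =>
    intro hj
    obtain ⟨a, b⟩ := ih (by omega)
    refine ⟨b, ?_⟩
    have e : 2 ^ k + (j + 1 + 1) = (2 ^ k + j) + 2 := by ring
    have e2 : 2 ^ k + j + 2 = 2 ^ k + (j + 2) := by ring
    have e3 : 2 ^ k + j + 1 = 2 ^ k + (j + 1) := by ring
    rw [e, hr, e2, tm_add k (j + 2) (by omega), e3, a, b, hr j, g]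
    ring

lemma key (k m : ℕ) (hm : m + 6 = 2 ^ k) :
    h (m + 3) ∣ h (2 * (m + 3)) + (1 - (-1) ^ k) := by
  have t3 : tm (m + 2) = (-1) ^ k := by rw [tm_rev k 3 (m + 2) (by omega), tm_three]; ring
  have t2 : tm (m + 3) = - (-1) ^ k := by rw [tm_rev k 2 (m + 3) (by omega), tm_two]; ring
  have t1 : tm (m + 4) = - (-1) ^ k := by rw [tm_rev k 1 (m + 4) (by omega), tm_one]; ring
  have t0 : tm (m + 5) = (-1) ^ k := by rw [tm_rev k 0 (m + 5) (by omega), tm_zero]; ring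
  have tN : tm (m + 6) = -1 := by
    have := tm_add k 0 (by positivity)
    rw [hm]; simpa [tm_zero] using this
  have hme : Even m := by
    have hk : k ≠ 0 := by rintro rfl; omega
    have : Even (2 ^ k) := (Nat.even_pow' hk).2 even_two
    rw [← hm] at this
    exact (Nat.even_add.1 this).2 (by decide)
  have hs := (shift h h0 h1 hr k m (by omega)).1
  have e : 2 * (m + 3) = 2 ^ k + m := by omega
  rw [e, hs, hme.neg_one_pow, ← hm]
  have a2 : h (m + 2) = (-1) ^ k * h (m + 1) + h m := by rw [hr, t3]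
  have a3 : h (m + 3) = - (-1) ^ k * h (m + 2) + h (m + 1) := by rw [hr (m + 1), t2]
  have a4 : h (m + 4) = - (-1) ^ k * h (m + 3) + h (m + 2) := by rw [hr (m + 2), t1]
  have a5 : h (m + 5) = (-1) ^ k * h (m + 4) + h (m + 3) := by rw [hr (m + 3), t0]
  have a6 : h (m + 6) = - 1 * h (m + 5) + h (m + 4) := by rw [hr (m + 4), tN]
  have w := wronski h h0 h1 hr m
  rw [hme.neg_one_pow] at w
  rcases neg_one_pow_eq_or ℤ k with hk | hk
  · rw [hk] at a2 a3 a4 a5 ⊢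
    refine ⟨h (m + 6 + 1) - g m, ?_⟩
    have b0 : h m = - h (m + 3) := by linarith
    have b6 : h (m + 6) = - h (m + 3) := by linarith
    rw [b6, b0]; ring
  · rw [hk] at a2 a3 a4 a5 ⊢
    have b0 : h m = h (m + 3) := by linarith
    have b6 : h (m + 6) = 3 * h (m + 3) - 2 * h (m + 1) := by linarith
    refine ⟨- h (m + 6 + 1) + 3 * g m - 2 * g (m + 1), ?_⟩
    rw [b6, ← b0]
    linear_combination (-2) * w

end

lemma rec_of (h : ℕ → ℤ)
    (hr : ∀ n, 2 ≤ n → h n = (-1) ^ (Nat.digits 2 n).sum * h (n - 1) + h (n - 2)) (n : ℕ) :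
    h (n + 2) = tm (n + 2) * h (n + 1) + h n := by
  have := hr (n + 2) (by omega)
  simpa [tm] using this

lemma key' (h : ℕ → ℤ) (h0 : h 0 = 0) (h1 : h 1 = 1)
    (hr : ∀ n, 2 ≤ n → h n = (-1) ^ (Nat.digits 2 n).sum * h (n - 1) + h (n - 2))
    (k : ℕ) (hk : 3 ≤ k) : h (2 ^ k - 3) ∣ h (2 * (2 ^ k - 3)) + (1 - (-1) ^ k) := by
  have h8 : 2 ^ 3 ≤ 2 ^ k := Nat.pow_le_pow_right (by norm_num) hk
  obtain ⟨m, hm⟩ : ∃ m, m + 6 = 2 ^ k := ⟨2 ^ k - 6, by omega⟩
  have e : 2 ^ k - 3 = m + 3 := by omega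
  rw [e]
  exact key h h0 h1 (rec_of h hr) k m hm

theorem q1 (h : ℕ → ℤ) (h0 : h 0 = 0) (h1 : h 1 = 1)
    (hr : ∀ n, 2 ≤ n → h n = (-1) ^ (Nat.digits 2 n).sum * h (n - 1) + h (n - 2))
    (n : ℕ) (hn : 1 ≤ n) : h (2 ^ (2 * n) - 3) ∣ h (2 * (2 ^ (2 * n) - 3)) := by
  rcases Nat.eq_or_lt_of_le hn with rfl | hn
  · norm_num [h1]
  · have := key' h h0 h1 hr (2 * n) (by omega)
    simpa [pow_mul] using this

theorem q2 (h : ℕ → ℤ) (h0 : h 0 = 0) (h1 : h 1 = 1)
    (hr : ∀ n, 2 ≤ n → h n = (-1) ^ (Nat.digits 2 n).sum * h (n - 1) + h (n - 2))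
    (k : ℕ) (hk : 3 ≤ k) (ho : Odd k) : h (2 ^ k - 3) ∣ h (2 * (2 ^ k - 3)) - (-2) := by
  have := key' h h0 h1 hr k hk
  rw [ho.neg_one_pow] at this
  simpa using this

end Pool.Agent.P.MP_36a07b_nt
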